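import Pool.Agent.Lib.MP_52d52b_nt.Sieve

/-!
# Sums of two squares have density zero
-/

open Filter Topology

namespace Pool.Agent.Lib.MP_52d52b_nt

/-- the residue classes modulo `p ^ 2` which are exactly divisible by `p` -/
def exactly (p : ℕ) : Set (Fin 1 → ZMod (p ^ 2)) :=
  {w | ZMod.castHom (dvd_pow_self p two_ne_zero) (ZMod p) (w 0) = 0 ∧ w 0 ≠ 0}

theorem card_exactly {p : ℕ} (hp : p.Prime) (h3 : 3 ≤ p) :
    (1 / 2 : ℝ) / p * ((p ^ 2 : ℕ) : ℝ) ^ 1 ≤ (exactly p).ncard := by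
  have : NeZero (p ^ 2) := ⟨pow_ne_zero 2 hp.ne_zero⟩
  have h1 : (Finset.Icc 1 (p - 1) : Set ℕ).ncard ≤ (exactly p).ncard := by
    refine Set.ncard_le_ncard_of_injOn (fun k => fun _ => ((p * k : ℕ) : ZMod (p ^ 2))) ?_ ?_
      (Set.toFinite _)
    · intro k hk
      rw [Finset.mem_coe, Finset.mem_Icc] at hk
      constructor
      · rw [map_natCast, Nat.cast_mul, ZMod.natCast_self, zero_mul]
      · intro h0
        rw [ZMod.natCast_eq_zero_iff, pow_two] at h0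
        have h2 := Nat.dvd_of_mul_dvd_mul_left hp.pos h0
        have h4 := Nat.le_of_dvd (by omega) h2
        omega
    · intro k hk k' hk' h
      rw [Finset.mem_coe, Finset.mem_Icc] at hk hk'
      have h2 := congrFun h 0
      simp only [ZMod.natCast_eq_natCast_iff'] at h2
      have hlt : ∀ j, 1 ≤ j ∧ j ≤ p - 1 → p * j < p ^ 2 := by
        intro j hj
        rw [pow_two]
        exact Nat.mul_lt_mul_of_pos_left (by omega) hp.pos
      rw [Nat.mod_eq_of_lt (hlt k hk), Nat.mod_eq_of_lt (hlt k' hk')] at h2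
      exact Nat.eq_of_mul_eq_mul_left hp.pos h2
  rw [Set.ncard_coe_finset, Nat.card_Icc] at h1
  have h2 : (p : ℝ) ≠ 0 := by exact_mod_cast hp.ne_zero
  have h4 : (1 / 2 : ℝ) / p * ((p ^ 2 : ℕ) : ℝ) ^ 1 = p / 2 := by
    push_cast
    field_simp
  rw [h4]
  have h5 : ((p - 1 + 1 - 1 : ℕ) : ℝ) ≤ (exactly p).ncard := by exact_mod_cast h1
  have h6 : ((p - 1 + 1 - 1 : ℕ) : ℝ) = p - 1 := by
    rw [Nat.add_sub_cancel, Nat.cast_sub hp.one_le, Nat.cast_one]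
  have h7 : (3 : ℝ) ≤ p := by exact_mod_cast h3
  rw [h6] at h5
  linarith

/-- the sums of two squares have density zero -/
theorem sumSq_count :
    Tendsto (fun H : ℕ => ({m : ℕ | m ≤ H ∧ ∃ x y : ℕ, m = x ^ 2 + y ^ 2}.ncard : ℝ) /
      (2 * H + 1)) atTop (𝓝 0) := by
  have hu : IsUnit (3 : ZMod 4) := by decide
  have h1 := density_crtB7 1 (fun p => p ^ 2) exactly (fun p => (1 / 2 : ℝ) / p)
    {p : ℕ | p.Prime ∧ 3 ≤ p ∧ (p : ZMod 4) = 3} (fun p hp => pow_pos hp.1.pos 2)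
    (fun p hp q hq hpq => Nat.Coprime.pow 2 2 ((Nat.coprime_primes hp.1 hq.1).mpr hpq))
    (fun T => sum_residue_unbounded14 (q := 4) (a := 3) hu (by norm_num) 3 T)
    (fun p hp => card_exactly hp.1 hp.2.1)
    (fun a => ∃ p : ℕ, p.Prime ∧ p % 4 = 3 ∧ (p : ℤ) ∣ a 0 ∧ ¬ (p : ℤ) ^ 2 ∣ a 0) (by
      rintro a p ⟨hp, -, hp3⟩ ⟨ha1, ha2⟩
      refine ⟨p, hp, ?_, ?_, ?_⟩
      · have h2 : (p : ZMod 4) = ((3 : ℕ) : ZMod 4) := by rw [hp3]; rfl
        rw [ZMod.natCast_eq_natCast_iff'] at h2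
        exact h2
      · rw [map_intCast, ZMod.intCast_zmod_eq_zero_iff_dvd] at ha1
        exact ha1
      · intro h2
        apply ha2
        change ((a 0 : ℤ) : ZMod (p ^ 2)) = 0
        rw [ZMod.intCast_zmod_eq_zero_iff_dvd]
        exact_mod_cast h2)
  refine squeeze_zero (fun H => by positivity) (fun H => ?_) h1
  rw [pow_one]
  refine div_le_div_of_nonneg_right ?_ (by positivity)
  rw [Nat.cast_le]
  have hfin : ({a : Fin 1 → ℤ | (∀ i, |a i| ≤ H) ∧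
      ¬ ∃ p : ℕ, p.Prime ∧ p % 4 = 3 ∧ (p : ℤ) ∣ a 0 ∧ ¬ (p : ℤ) ^ 2 ∣ a 0}).Finite := by
    refine (Set.finite_Icc (fun _ : Fin 1 => -(H : ℤ)) (fun _ => (H : ℤ))).subset ?_
    rintro a ⟨ha, -⟩
    exact ⟨fun i => (abs_le.mp (ha i)).1, fun i => (abs_le.mp (ha i)).2⟩
  refine Set.ncard_le_ncard_of_injOn (fun m => fun _ => (m : ℤ)) ?_ ?_ hfin
  · rintro m ⟨hm, x, y, hxy⟩
    refine ⟨fun i => by rw [Nat.abs_cast]; exact_mod_cast hm, ?_⟩
    rintro ⟨p, hp, hp3, h2, h3⟩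
    have h4 : p ∣ m := Int.natCast_dvd_natCast.mp h2
    have h5 : ¬ p ^ 2 ∣ m := fun h => h3 (by
      have := Int.natCast_dvd_natCast.mpr h
      rwa [Nat.cast_pow] at this)
    have hm0 : m ≠ 0 := by
      rintro rfl
      exact h5 (dvd_zero _)
    have h6 := Nat.eq_sq_add_sq_iff.mp ⟨x, y, hxy⟩ p
      (Nat.mem_primeFactors.mpr ⟨hp, h4, hm0⟩) hp3
    have : Fact p.Prime := ⟨hp⟩
    have h7 : 1 ≤ padicValNat p m := one_le_padicValNat_of_dvd hm0 h4
    have h8 : ¬ 2 ≤ padicValNat p m := by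
      intro h
      exact h5 ((padicValNat_dvd_iff_le hm0).mpr h)
    have h9 : padicValNat p m = 1 := by omega
    rw [h9] at h6
    exact absurd h6 (by decide)
  · intro m _ m' _ h
    exact Nat.cast_injective (R := ℤ) (congrFun h 0)

end Pool.Agent.Lib.MP_52d52b_nt
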