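import Pool.Agent.Lib.MP_52d52b_nt.Geom
import Pool.Agent.Lib.MP_52d52b_nt.SumSq

/-!
# MC-radii with bounded denominator
-/

open Filter Topology

namespace Pool.Agent.Lib.MP_52d52b_nt

/-- the centre of a circle through three lattice points is rational -/
theorem centre_rational {c : ℝ × ℝ} {r : ℝ} {p q s : ℤ × ℤ} (hpq : p ≠ q) (hps : p ≠ s)
    (hqs : q ≠ s) (hp : p ∈ onCircle c r) (hq : q ∈ onCircle c r) (hs : s ∈ onCircle c r) :
    ∃ D a b : ℤ, D ≠ 0 ∧ (D : ℝ) * c.1 = a ∧ (D : ℝ) * c.2 = b := by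
  have e1 : ((p.1 : ℝ) - c.1) ^ 2 + ((p.2 : ℝ) - c.2) ^ 2 = r ^ 2 := hp
  have e2 : ((q.1 : ℝ) - c.1) ^ 2 + ((q.2 : ℝ) - c.2) ^ 2 = r ^ 2 := hq
  have e3 : ((s.1 : ℝ) - c.1) ^ 2 + ((s.2 : ℝ) - c.2) ^ 2 = r ^ 2 := hs
  set u1 : ℤ := q.1 - p.1 with hu1
  set u2 : ℤ := q.2 - p.2 with hu2
  set w1 : ℤ := s.1 - p.1 with hw1
  set w2 : ℤ := s.2 - p.2 with hw2
  set U : ℤ := q.1 ^ 2 + q.2 ^ 2 - p.1 ^ 2 - p.2 ^ 2 with hU
  set W : ℤ := s.1 ^ 2 + s.2 ^ 2 - p.1 ^ 2 - p.2 ^ 2 with hW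
  have f1 : 2 * (u1 : ℝ) * c.1 + 2 * u2 * c.2 = U := by
    rw [hu1, hu2, hU]
    push_cast
    linarith
  have f2 : 2 * (w1 : ℝ) * c.1 + 2 * w2 * c.2 = W := by
    rw [hw1, hw2, hW]
    push_cast
    linarith
  refine ⟨2 * (u1 * w2 - u2 * w1), U * w2 - W * u2, W * u1 - U * w1, ?_, ?_, ?_⟩
  · intro h0
    have hdet : u1 * w2 = u2 * w1 := by omega
    have hdet' : (u1 : ℝ) * w2 = u2 * w1 := by exact_mod_cast hdet
    -- the relations between the vectors
    have g1 : 2 * (((p.1 : ℝ) - c.1) * u1 + ((p.2 : ℝ) - c.2) * u2) = -((u1 : ℝ) ^ 2 + u2 ^ 2) := by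
      rw [hu1, hu2]
      push_cast
      linarith
    have g2 : 2 * (((p.1 : ℝ) - c.1) * w1 + ((p.2 : ℝ) - c.2) * w2) = -((w1 : ℝ) ^ 2 + w2 ^ 2) := by
      rw [hw1, hw2]
      push_cast
      linarith
    have hu : (u1 : ℝ) ≠ 0 ∨ (u2 : ℝ) ≠ 0 := by
      by_contra hcon
      push Not at hcon
      have h1 : u1 = 0 := by exact_mod_cast hcon.1
      have h2 : u2 = 0 := by exact_mod_cast hcon.2
      exact hpq (Prod.ext (by omega) (by omega))
    obtain ⟨l, hl1, hl2⟩ : ∃ l : ℝ, (w1 : ℝ) = l * u1 ∧ (w2 : ℝ) = l * u2 := by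
      rcases hu with h | h
      · refine ⟨w1 / u1, by field_simp, ?_⟩
        field_simp
        linarith
      · refine ⟨w2 / u2, ?_, by field_simp⟩
        field_simp
        linarith
    have hn : 0 < (u1 : ℝ) ^ 2 + u2 ^ 2 := by
      rcases hu with h | h
      · have := pow_pos (abs_pos.mpr h) 2
        rw [sq_abs] at this
        positivity
      · have := pow_pos (abs_pos.mpr h) 2
        rw [sq_abs] at this
        positivity
    rw [hl1, hl2] at g2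
    have h1 : l * (l - 1) * ((u1 : ℝ) ^ 2 + u2 ^ 2) = 0 := by
      have : l * (2 * (((p.1 : ℝ) - c.1) * u1 + ((p.2 : ℝ) - c.2) * u2)) =
        -((l * u1) ^ 2 + (l * u2) ^ 2) := by rw [← g2]; ring
      rw [g1] at this
      linarith
    rcases mul_eq_zero.mp h1 with h2 | h2
    · rcases mul_eq_zero.mp h2 with h3 | h3
      · rw [h3, zero_mul] at hl1 hl2
        have h4 : w1 = 0 := by exact_mod_cast hl1
        have h5 : w2 = 0 := by exact_mod_cast hl2
        exact hps (Prod.ext (by omega) (by omega))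
      · have h6 : l = 1 := by linarith
        rw [h6, one_mul] at hl1 hl2
        have h4 : w1 = u1 := by exact_mod_cast hl1
        have h5 : w2 = u2 := by exact_mod_cast hl2
        exact hqs (Prod.ext (by omega) (by omega))
    · exact absurd h2 hn.ne'
  · push_cast
    rw [← f1, ← f2]
    ring
  · push_cast
    rw [← f1, ← f2]
    ring

/-- a natural number which is a sum of two squares after multiplication with a square is one -/
theorem sumSq_of_mul_sq {N D x y : ℕ} (hN : N ≠ 0) (hD : D ≠ 0)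
    (h : N * D ^ 2 = x ^ 2 + y ^ 2) : ∃ x' y' : ℕ, N = x' ^ 2 + y' ^ 2 := by
  rw [Nat.eq_sq_add_sq_iff]
  intro q hq hq3
  have hqp := (Nat.mem_primeFactors.mp hq).1
  have : Fact q.Prime := ⟨hqp⟩
  have hD2 : D ^ 2 ≠ 0 := pow_ne_zero 2 hD
  have h1 := Nat.eq_sq_add_sq_iff.mp ⟨x, y, h⟩ q (Nat.mem_primeFactors.mpr
    ⟨hqp, Dvd.dvd.mul_right (Nat.mem_primeFactors.mp hq).2.1 _, mul_ne_zero hN hD2⟩) hq3
  rw [padicValNat.mul hN hD2, padicValNat.pow, Nat.even_add] at h1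
  exact h1.mpr (even_two_mul _)

/-- the square of the radius of a circle through three lattice points -/
theorem radius_sumSq {c : ℝ × ℝ} {r : ℝ} (hr : 0 < r) (h3 : 3 ≤ (onCircle c r).ncard)
    {k : ℕ} (hk : 0 < k) {m : ℤ} (hm : (k : ℝ) * r ^ 2 = m) :
    ∃ M : ℕ, (k : ℝ) ^ 2 * r ^ 2 = M ∧ ∃ x y : ℕ, M = x ^ 2 + y ^ 2 := by
  obtain ⟨T, hT1, hT2⟩ := Set.exists_subset_card_eq h3
  obtain ⟨p, q, s, hpq, hps, hqs, hT⟩ := Set.ncard_eq_three.mp hT2
  obtain ⟨D, a, b, hD, ha, hb⟩ := centre_rational hpq hps hqs (hT1 (by rw [hT]; simp))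
    (hT1 (by rw [hT]; simp)) (hT1 (by rw [hT]; simp))
  have hp : ((p.1 : ℝ) - c.1) ^ 2 + ((p.2 : ℝ) - c.2) ^ 2 = r ^ 2 :=
    hT1 (show p ∈ T by rw [hT]; simp)
  have hk' : (0 : ℝ) < k := by exact_mod_cast hk
  have hm0 : 0 < m := by
    have : (0 : ℝ) < m := by rw [← hm]; positivity
    exact_mod_cast this
  obtain ⟨m', rfl⟩ := Int.eq_ofNat_of_zero_le hm0.le
  have hm' : m' ≠ 0 := by
    rintro rfl
    exact lt_irrefl _ hm0
  refine ⟨k * m', ?_, ?_⟩
  · rw [Nat.cast_mul, pow_two, mul_assoc, hm]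
    rfl
  · refine sumSq_of_mul_sq (D := D.natAbs) (x := (k * (D * p.1 - a)).natAbs)
      (y := (k * (D * p.2 - b)).natAbs) (mul_ne_zero hk.ne' hm') (Int.natAbs_ne_zero.mpr hD) ?_
    have h1 : ((k * m' * D.natAbs ^ 2 : ℕ) : ℤ) =
        (((k * (D * p.1 - a)).natAbs ^ 2 + (k * (D * p.2 - b)).natAbs ^ 2 : ℕ) : ℤ) := by
      push_cast
      rw [sq_abs, sq_abs, sq_abs]
      have h2 : (((k : ℤ) * m' * D ^ 2 : ℤ) : ℝ) =
          (((k * (D * p.1 - a)) ^ 2 + (k * (D * p.2 - b)) ^ 2 : ℤ) : ℝ) := by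
        push_cast
        rw [← ha, ← hb]
        have h3 : (m' : ℝ) = k * r ^ 2 := by rw [hm]; rfl
        rw [h3, ← hp]
        ring
      exact_mod_cast h2
    exact_mod_cast h1

theorem ncard_le_four {c : ℝ × ℝ} {r : ℝ} (h : (onCircle c r).encard ≤ 4) :
    (onCircle c r).ncard ≤ 4 := by
  rw [← (onCircle_finite c r).cast_ncard_eq] at h
  exact_mod_cast h

theorem bounded_count {k : ℕ} (hk : 0 < k) (N : ℕ) :
    (bounded k ∩ {n | n < N}).ncard ≤
      {m : ℕ | m ≤ 4 * k ^ 2 * N ∧ ∃ x y : ℕ, m = x ^ 2 + y ^ 2}.ncard := by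
  classical
  have hex : ∀ n : ℕ, ∃ M : ℕ, n ∈ bounded k → ∃ (c : ℝ × ℝ) (r : ℝ), IsMCCircle n c r ∧
      (onCircle c r).ncard ≤ 4 ∧ (k : ℝ) ^ 2 * r ^ 2 = M ∧ ∃ x y : ℕ, M = x ^ 2 + y ^ 2 := by
    intro n
    by_cases hn : n ∈ bounded k
    · obtain ⟨c, r, h1, h2, m, hm⟩ := hn
      obtain ⟨M, hM, hxy⟩ := radius_sumSq h1.1.1 h1.three_le hk hm
      exact ⟨M, fun _ => ⟨c, r, h1, ncard_le_four h2, hM, hxy⟩⟩
    · exact ⟨0, fun h => absurd h hn⟩
  choose f hf using hex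
  have hk' : (0 : ℝ) < k := by exact_mod_cast hk
  refine Set.ncard_le_ncard_of_injOn f ?_ ?_
    ((Set.finite_Iic (4 * k ^ 2 * N)).subset fun m hm => hm.1)
  · rintro n ⟨hn, hnN⟩
    obtain ⟨c, r, h1, h2, h3, h4⟩ := hf n hn
    refine ⟨?_, h4⟩
    have h5 : r ^ 2 ≤ 4 * n + 4 := rad_bound (c := c) h1.ncard_inside.le
    have h6 : (f n : ℝ) ≤ 4 * k ^ 2 * N := by
      rw [← h3]
      have h7 : (n : ℝ) + 1 ≤ N := by exact_mod_cast hnN
      have h8 : (k : ℝ) ^ 2 * r ^ 2 ≤ (k : ℝ) ^ 2 * (4 * N) :=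
        mul_le_mul_of_nonneg_left (by linarith) (by positivity)
      linarith
    exact_mod_cast h6
  · rintro n ⟨hn, -⟩ n' ⟨hn', -⟩ heq
    obtain ⟨c, r, h1, h2, h3, h4⟩ := hf n hn
    obtain ⟨c', r', h1', h2', h3', h4'⟩ := hf n' hn'
    rw [heq, ← h3'] at h3
    have h5 : r ^ 2 = r' ^ 2 := mul_left_cancel₀ (by positivity) h3
    have h6 : r = r' := by
      have := h1.1.1
      have := h1'.1.1
      nlinarith
    rcases lt_trichotomy n n' with h7 | h7 | h7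
    · exact absurd (h1.lt h1' h7 h2) (by rw [h6]; exact lt_irrefl _)
    · exact h7
    · exact absurd (h1'.lt h1 h7 h2') (by rw [h6]; exact lt_irrefl _)

theorem bounded_density {k : ℕ} (hk : 0 < k) :
    Tendsto (fun N : ℕ => ((bounded k ∩ {n | n < N}).ncard : ℝ) / N) atTop (𝓝 0) := by
  have hk' : (0 : ℝ) < k := by exact_mod_cast hk
  have h1 : Tendsto (fun N : ℕ => 4 * k ^ 2 * N) atTop atTop :=
    tendsto_id.const_mul_atTop' (by positivity)
  have h2 := (sumSq_count.comp h1).mul_const (8 * (k : ℝ) ^ 2 + 1)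
  rw [zero_mul] at h2
  refine squeeze_zero (fun N => by positivity) (fun N => ?_) h2
  rcases Nat.eq_zero_or_pos N with rfl | hN
  · simp
    positivity
  · have hN' : (1 : ℝ) ≤ N := by exact_mod_cast hN
    have h3 : (((bounded k ∩ {n | n < N}).ncard : ℕ) : ℝ) ≤
        ({m : ℕ | m ≤ 4 * k ^ 2 * N ∧ ∃ x y : ℕ, m = x ^ 2 + y ^ 2}.ncard : ℝ) := by
      exact_mod_cast bounded_count hk N
    simp only [Function.comp_apply]
    rw [div_mul_eq_mul_div, div_le_div_iff₀ (by positivity) (by positivity)]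
    have h4 : (2 * ((4 * k ^ 2 * N : ℕ) : ℝ) + 1) ≤ (8 * (k : ℝ) ^ 2 + 1) * N := by
      push_cast
      nlinarith
    calc (((bounded k ∩ {n | n < N}).ncard : ℕ) : ℝ) * (2 * ((4 * k ^ 2 * N : ℕ) : ℝ) + 1)
        ≤ ({m : ℕ | m ≤ 4 * k ^ 2 * N ∧ ∃ x y : ℕ, m = x ^ 2 + y ^ 2}.ncard : ℝ) *
          ((8 * (k : ℝ) ^ 2 + 1) * N) := mul_le_mul h3 h4 (by positivity) (by positivity)
      _ = _ := by ring

/-- a set of density zero can be removed without changing the upper density -/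
theorem upperDensity_sdiff {S T : Set ℕ}
    (hT : Tendsto (fun N : ℕ => ((T ∩ {n | n < N}).ncard : ℝ) / N) atTop (𝓝 0)) :
    upperDensity S = upperDensity (S \ T) := by
  have hfin : ∀ N : ℕ, {n : ℕ | n < N}.Finite := fun N => Set.finite_Iio N
  set u := fun N : ℕ => ((S ∩ {n | n < N}).ncard : ℝ) / N with hu
  set v := fun N : ℕ => (((S \ T) ∩ {n | n < N}).ncard : ℝ) / N with hv
  set w := fun N : ℕ => ((T ∩ {n | n < N}).ncard : ℝ) / N with hw
  have hle1 : ∀ (R : Set ℕ) (N : ℕ), ((R ∩ {n | n < N}).ncard : ℝ) / N ≤ 1 := by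
    intro R N
    apply div_le_one_of_le₀ _ (by positivity)
    have h1 : (R ∩ {n | n < N}).ncard ≤ N := by
      calc (R ∩ {n | n < N}).ncard ≤ {n : ℕ | n < N}.ncard :=
            Set.ncard_le_ncard Set.inter_subset_right (hfin N)
        _ = N := by
            have : {n : ℕ | n < N} = (Finset.range N : Set ℕ) := by ext; simp
            rw [this, Set.ncard_coe_finset, Finset.card_range]
    exact_mod_cast h1
  have hb1 : ∀ R : Set ℕ, IsBoundedUnder (· ≤ ·) atTop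
      (fun N : ℕ => ((R ∩ {n | n < N}).ncard : ℝ) / N) :=
    fun R => isBoundedUnder_of ⟨1, hle1 R⟩
  have hb2 : ∀ R : Set ℕ, IsBoundedUnder (· ≥ ·) atTop
      (fun N : ℕ => ((R ∩ {n | n < N}).ncard : ℝ) / N) :=
    fun R => isBoundedUnder_of ⟨0, fun N => by positivity⟩
  have huv : ∀ N, u N ≤ (v + w) N := by
    intro N
    simp only [hu, hv, hw, Pi.add_apply]
    rw [← add_div]
    refine div_le_div_of_nonneg_right ?_ (by positivity)
    have h1 : (S ∩ {n | n < N}).ncard ≤ ((S \ T) ∩ {n | n < N}).ncard +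
        (T ∩ {n | n < N}).ncard := by
      refine le_trans (Set.ncard_le_ncard ?_ (((hfin N).inter_of_right _).union
        ((hfin N).inter_of_right _))) (Set.ncard_union_le _ _)
      rintro n ⟨h1, h2⟩
      by_cases h3 : n ∈ T
      · exact Or.inr ⟨h3, h2⟩
      · exact Or.inl ⟨⟨h1, h3⟩, h2⟩
    exact_mod_cast h1
  have hvu : ∀ N, v N ≤ u N := by
    intro N
    simp only [hu, hv]
    refine div_le_div_of_nonneg_right ?_ (by positivity)
    have h1 : ((S \ T) ∩ {n | n < N}).ncard ≤ (S ∩ {n | n < N}).ncard :=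
      Set.ncard_le_ncard (Set.inter_subset_inter_left _ Set.sdiff_subset)
        ((hfin N).inter_of_right _)
    exact_mod_cast h1
  change limsup u atTop = limsup v atTop
  apply le_antisymm
  · have h1 : limsup u atTop ≤ limsup (v + w) atTop :=
      limsup_le_limsup (Eventually.of_forall huv) (hb2 S).isCoboundedUnder_le
        (isBoundedUnder_le_add (hb1 _) (hb1 _))
    have h2 : limsup (v + w) atTop ≤ limsup v atTop + limsup w atTop :=
      limsup_add_le (hb2 _) (hb1 _) (hb2 _).isCoboundedUnder_le (hb1 _)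
    rw [hT.limsup_eq, add_zero] at h2
    exact h1.trans h2
  · exact limsup_le_limsup (Eventually.of_forall hvu) (hb2 _).isCoboundedUnder_le (hb1 _)

end Pool.Agent.Lib.MP_52d52b_nt
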