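import Pool.Agent.Lib.MP_52d52b_nt.Geom

/-!
# Existence of largest circles
-/

open Filter Topology

namespace Pool.Agent.Lib.MP_52d52b_nt

theorem sqd_translate (p z : ℤ × ℤ) (c : ℝ × ℝ) :
    sqd (p + z) (c.1 + z.1, c.2 + z.2) = sqd p c := by
  simp only [sqd, Prod.fst_add, Prod.snd_add]
  push_cast
  ring

theorem inside_translate (z : ℤ × ℤ) (c : ℝ × ℝ) (r : ℝ) :
    inside (c.1 + z.1, c.2 + z.2) r = (fun p => p + z) '' inside c r := by
  ext p
  constructor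
  · intro hp
    refine ⟨p - z, ?_, sub_add_cancel p z⟩
    have h1 := sqd_translate (p - z) z c
    rw [sub_add_cancel] at h1
    change sqd (p - z) c < r ^ 2
    rw [← h1]
    exact hp
  · rintro ⟨q, hq, rfl⟩
    change sqd (q + z) (c.1 + z.1, c.2 + z.2) < r ^ 2
    rw [sqd_translate]
    exact hq

theorem ncard_translate (z : ℤ × ℤ) (c : ℝ × ℝ) (r : ℝ) :
    (inside (c.1 + z.1, c.2 + z.2) r).ncard = (inside c r).ncard := by
  rw [inside_translate]
  exact Set.ncard_image_of_injective _ (add_left_injective z)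

/-- every circle can be moved to one with centre in the unit square -/
theorem exists_unit (c : ℝ × ℝ) (r : ℝ) : ∃ c' : ℝ × ℝ, c' ∈ Set.Icc (0 : ℝ × ℝ) 1 ∧
    (inside c' r).ncard = (inside c r).ncard := by
  refine ⟨(Int.fract c.1, Int.fract c.2), ⟨⟨Int.fract_nonneg _, Int.fract_nonneg _⟩,
    ⟨(Int.fract_lt_one _).le, (Int.fract_lt_one _).le⟩⟩, ?_⟩
  have h1 := ncard_translate (⌊c.1⌋, ⌊c.2⌋) (Int.fract c.1, Int.fract c.2) r
  simp only [Int.fract_add_floor] at h1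
  exact h1.symm

theorem isClosed_le_ncard (K : ℕ) :
    IsClosed {x : (ℝ × ℝ) × ℝ | (inside x.1 x.2).ncard ≤ K} := by
  rw [← isOpen_compl_iff]
  have h1 : {x : (ℝ × ℝ) × ℝ | (inside x.1 x.2).ncard ≤ K}ᶜ =
      ⋃ F ∈ {F : Finset (ℤ × ℤ) | F.card = K + 1}, ⋂ p ∈ F,
        {x : (ℝ × ℝ) × ℝ | sqd p x.1 < x.2 ^ 2} := by
    ext x
    simp only [Set.mem_compl_iff, Set.mem_ofPred_eq, not_le, Set.mem_iUnion, Set.mem_iInter,
      exists_prop]
    constructor
    · intro h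
      obtain ⟨F, hF1, hF2⟩ := Set.exists_subset_card_eq (Nat.succ_le_of_lt h)
      have hfin : F.Finite := (inside_finite _ _).subset hF1
      refine ⟨hfin.toFinset, ?_, fun p hp => hF1 (hfin.mem_toFinset.mp hp)⟩
      rw [← Set.ncard_eq_toFinset_card F hfin]
      exact hF2
    · rintro ⟨F, hF, h⟩
      have h2 : (F : Set (ℤ × ℤ)).ncard ≤ (inside x.1 x.2).ncard :=
        Set.ncard_le_ncard (fun p hp => h p hp) (inside_finite _ _)
      rw [Set.ncard_coe_finset, hF] at h2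
      omega
  rw [h1]
  refine isOpen_biUnion fun F _ => isOpen_biInter_finset fun p _ => ?_
  refine isOpen_lt ?_ ?_
  · unfold sqd
    fun_prop
  · fun_prop

/-- there is a largest circle among those which enclose at most `K` lattice points -/
theorem exists_largest (K : ℕ) {c₀ : ℝ × ℝ} {r₀ : ℝ} (h : (inside c₀ r₀).ncard ≤ K) :
    ∃ (c : ℝ × ℝ) (r : ℝ), (inside c r).ncard ≤ K ∧
      ∀ (c' : ℝ × ℝ) (r' : ℝ), (inside c' r').ncard ≤ K → r' ≤ r := by
  set B : ℝ := 4 * K + 4 with hB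
  have hB1 : (1 : ℝ) ≤ B := by
    have : (0 : ℝ) ≤ K := by positivity
    linarith
  have hbound : ∀ (c' : ℝ × ℝ) (r' : ℝ), (inside c' r').ncard ≤ K → r' ≤ B := by
    intro c' r' h'
    have h1 := rad_bound h'
    by_contra hcon
    rw [not_le] at hcon
    nlinarith
  set S := (Set.Icc (0 : ℝ × ℝ) 1 ×ˢ Set.Icc r₀ B) ∩
    {x : (ℝ × ℝ) × ℝ | (inside x.1 x.2).ncard ≤ K} with hS
  have hcomp : IsCompact S :=
    (isCompact_Icc.prod isCompact_Icc).inter_right (isClosed_le_ncard K)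
  obtain ⟨c1, hc1, hc2⟩ := exists_unit c₀ r₀
  have hne : S.Nonempty :=
    ⟨(c1, r₀), ⟨hc1, le_rfl, hbound c₀ r₀ h⟩, by
      change (inside c1 r₀).ncard ≤ K
      rw [hc2]
      exact h⟩
  obtain ⟨⟨c, r⟩, hx, hmax⟩ := hcomp.exists_isMaxOn hne continuous_snd.continuousOn
  refine ⟨c, r, hx.2, fun c' r' h' => ?_⟩
  rcases le_or_gt r' r₀ with h1 | h1
  · exact h1.trans hx.1.2.1
  · obtain ⟨c2, hc3, hc4⟩ := exists_unit c' r'
    exact hmax (show (c2, r') ∈ S from ⟨⟨hc3, h1.le, hbound c' r' h'⟩, by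
      change (inside c2 r').ncard ≤ K
      rw [hc4]
      exact h'⟩)

/-- after a number with an MC-circle through at most `2 * k + 2` lattice points there is, within
distance `k`, an MC number with larger MC-radius -/
theorem IsMCCircle.next {n k : ℕ} {c : ℝ × ℝ} {r : ℝ} (h : IsMCCircle n c r)
    (hk : (onCircle c r).ncard ≤ 2 * k + 2) :
    ∃ m : ℕ, n < m ∧ m ≤ n + k ∧ ∃ (c' : ℝ × ℝ) (r' : ℝ), IsMCCircle m c' r' ∧ r < r' := by
  obtain ⟨c1, r1, h1, h2⟩ := grow_count (c := c) h.1.1 k hk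
  rw [h.ncard_inside] at h2
  obtain ⟨c', r', h3, h4⟩ := exists_largest (n + k) h2
  have h5 : r < r' := h1.trans_le (h4 c1 r1 h2)
  refine ⟨(inside c' r').ncard, ?_, h3, c', r', ⟨encloses_iff.mpr ⟨h.1.1.trans h5, rfl⟩, ?_⟩, h5⟩
  · by_contra hcon
    rw [not_lt] at hcon
    exact absurd (h.le_of_ncard_le hcon) (not_le.mpr h5)
  · intro c2 r2 h6
    exact h4 c2 r2 ((encloses_iff.mp h6).2.le.trans h3)

end Pool.Agent.Lib.MP_52d52b_nt
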