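import Mathlib

/-!
# Maximally circlable numbers: definitions
-/

open Filter Topology

namespace Pool.Agent.Lib.MP_52d52b_nt

/-- the square of the distance of the lattice point `p` from the point `c` -/
noncomputable def sqd (p : ℤ × ℤ) (c : ℝ × ℝ) : ℝ :=
  ((p.1 : ℝ) - c.1) ^ 2 + ((p.2 : ℝ) - c.2) ^ 2

/-- the lattice points in the open disk with centre `c` and radius `r` -/
def inside (c : ℝ × ℝ) (r : ℝ) : Set (ℤ × ℤ) := {p | sqd p c < r ^ 2}

/-- the lattice points on the circle with centre `c` and radius `r` -/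
def onCircle (c : ℝ × ℝ) (r : ℝ) : Set (ℤ × ℤ) := {p | sqd p c = r ^ 2}

/-- the circle with centre `c` and radius `r > 0` encloses exactly `n` lattice points -/
def Encloses (n : ℕ) (c : ℝ × ℝ) (r : ℝ) : Prop := 0 < r ∧ (inside c r).encard = n

/-- an MC-circle of `n`: a largest circle which encloses exactly `n` lattice points -/
def IsMCCircle (n : ℕ) (c : ℝ × ℝ) (r : ℝ) : Prop :=
  Encloses n c r ∧ ∀ (c' : ℝ × ℝ) (r' : ℝ), Encloses n c' r' → r' ≤ r

/-- some reflection of the plane which maps the lattice onto itself maps `S` onto itself -/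
def LatticeSymmetric (S : Set (ℤ × ℤ)) : Prop :=
  ∃ m : ℤ, (fun p : ℤ × ℤ => (m - p.1, p.2)) '' S = S ∨
    (fun p : ℤ × ℤ => (p.1, m - p.2)) '' S = S ∨
    (fun p : ℤ × ℤ => (p.2 - m, p.1 + m)) '' S = S ∨
    (fun p : ℤ × ℤ => (m - p.2, m - p.1)) '' S = S

/-- the set `A` of the problem: the numbers with an MC-circle which passes through exactly four
lattice points, the set of which is invariant under no reflection which preserves the lattice -/
def A : Set ℕ :=
  {n | ∃ (c : ℝ × ℝ) (r : ℝ), IsMCCircle n c r ∧ (onCircle c r).encard = 4 ∧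
    ¬ LatticeSymmetric (onCircle c r)}

/-- the numbers with an MC-circle with at most four lattice points on it, such that `k` times the
square of its radius is an integer -/
def bounded (k : ℕ) : Set ℕ :=
  {n | ∃ (c : ℝ × ℝ) (r : ℝ), IsMCCircle n c r ∧ (onCircle c r).encard ≤ 4 ∧
    ∃ m : ℤ, (k : ℝ) * r ^ 2 = m}

/-- the upper density of a set of natural numbers -/
noncomputable def upperDensity (S : Set ℕ) : ℝ :=
  limsup (fun N : ℕ => ((S ∩ {n | n < N}).ncard : ℝ) / N) atTop

end Pool.Agent.Lib.MP_52d52b_nt
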