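import Pool.Agent.Lib.MP_52d52b_nt.Defs

/-!
# Moving and filling circles
-/

open Filter Topology

namespace Pool.Agent.Lib.MP_52d52b_nt

theorem finite_le (c : ℝ × ℝ) (R : ℝ) : {p : ℤ × ℤ | sqd p c ≤ R}.Finite := by
  have h1 : ((Set.Icc ⌊c.1 - (|R| + 1)⌋ ⌈c.1 + (|R| + 1)⌉) ×ˢ
      (Set.Icc ⌊c.2 - (|R| + 1)⌋ ⌈c.2 + (|R| + 1)⌉) : Set (ℤ × ℤ)).Finite :=
    (Set.finite_Icc _ _).prod (Set.finite_Icc _ _)
  refine h1.subset ?_
  intro p hp
  have hp' : ((p.1 : ℝ) - c.1) ^ 2 + ((p.2 : ℝ) - c.2) ^ 2 ≤ R := hp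
  have key : ∀ x : ℝ, x ^ 2 ≤ R → |x| ≤ |R| + 1 := by
    intro x hx
    apply abs_le_of_sq_le_sq' _ (by positivity) |> abs_le.mpr
    have := le_abs_self R
    nlinarith [abs_nonneg R]
  have h2 := abs_le.mp (key _ (by nlinarith [sq_nonneg ((p.2 : ℝ) - c.2)]) :
    |(p.1 : ℝ) - c.1| ≤ |R| + 1)
  have h3 := abs_le.mp (key _ (by nlinarith [sq_nonneg ((p.1 : ℝ) - c.1)]) :
    |(p.2 : ℝ) - c.2| ≤ |R| + 1)
  refine ⟨⟨?_, ?_⟩, ⟨?_, ?_⟩⟩
  · exact_mod_cast (Int.floor_le _).trans (by linarith : c.1 - (|R| + 1) ≤ (p.1 : ℝ))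
  · exact_mod_cast (by linarith : (p.1 : ℝ) ≤ c.1 + (|R| + 1)).trans (Int.le_ceil _)
  · exact_mod_cast (Int.floor_le _).trans (by linarith : c.2 - (|R| + 1) ≤ (p.2 : ℝ))
  · exact_mod_cast (by linarith : (p.2 : ℝ) ≤ c.2 + (|R| + 1)).trans (Int.le_ceil _)

theorem inside_finite (c : ℝ × ℝ) (r : ℝ) : (inside c r).Finite :=
  (finite_le c (r ^ 2)).subset fun p hp => (show sqd p c < r ^ 2 from hp).le

theorem onCircle_finite (c : ℝ × ℝ) (r : ℝ) : (onCircle c r).Finite :=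
  (finite_le c (r ^ 2)).subset fun p hp => (show sqd p c = r ^ 2 from hp).le

theorem encard_inside (c : ℝ × ℝ) (r : ℝ) : (inside c r).encard = (inside c r).ncard :=
  ((inside_finite c r).cast_ncard_eq).symm

theorem gap (c : ℝ × ℝ) (d : ℝ) : ∃ δ : ℝ, 0 < δ ∧ ∀ p, d < sqd p c → d + δ ≤ sqd p c := by
  have hfin : {p : ℤ × ℤ | d < sqd p c ∧ sqd p c ≤ d + 1}.Finite :=
    (finite_le c (d + 1)).subset fun _ hp => hp.2
  rcases Set.eq_empty_or_nonempty {p : ℤ × ℤ | d < sqd p c ∧ sqd p c ≤ d + 1} with h | h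
  · refine ⟨1, one_pos, fun p hp => ?_⟩
    by_contra hcon
    have : p ∈ {p : ℤ × ℤ | d < sqd p c ∧ sqd p c ≤ d + 1} := ⟨hp, (not_le.mp hcon).le⟩
    rw [h] at this
    exact this
  · obtain ⟨p0, hp0, hmin⟩ := Set.exists_min_image _ (fun p => sqd p c) hfin h
    refine ⟨min 1 (sqd p0 c - d), lt_min one_pos (by linarith [hp0.1]), fun p hp => ?_⟩
    rcases le_or_gt (sqd p c) (d + 1) with h1 | h1
    · have h2 := hmin p ⟨hp, h1⟩
      have h3 := min_le_right 1 (sqd p0 c - d)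
      linarith
    · have h3 := min_le_left 1 (sqd p0 c - d)
      linarith

/-- moving the centre in the direction `v` -/
theorem grow {c : ℝ × ℝ} {r : ℝ} (hr : 0 < r) (T : Set (ℤ × ℤ)) (v : ℝ × ℝ)
    (hv : v.1 ^ 2 + v.2 ^ 2 = r ^ 2)
    (h : ∀ p ∈ onCircle c r, p ∉ T →
      ((p.1 : ℝ) - c.1) * v.1 + ((p.2 : ℝ) - c.2) * v.2 ≤ 0) :
    ∃ (c' : ℝ × ℝ) (r' : ℝ), r < r' ∧ inside c' r' ⊆ inside c r ∪ T := by
  obtain ⟨δ, hδ, hgap⟩ := gap c (r ^ 2)
  have hr2 : 0 < r ^ 2 := by positivity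
  set ε := δ / (2 * r ^ 2 + δ) with hε
  have hε0 : 0 < ε := by positivity
  have hεe : ε * (2 * r ^ 2 + δ) = δ := by
    rw [hε]
    field_simp
  have hε1 : ε < 1 := by
    rw [hε, div_lt_one (by positivity)]
    linarith
  refine ⟨(c.1 + ε * v.1, c.2 + ε * v.2), Real.sqrt (r ^ 2 + ε ^ 2 * r ^ 2), ?_, ?_⟩
  · apply Real.lt_sqrt_of_sq_lt
    nlinarith [mul_pos (pow_pos hε0 2) hr2]
  · intro p hp
    have hp' : sqd p (c.1 + ε * v.1, c.2 + ε * v.2) <
      Real.sqrt (r ^ 2 + ε ^ 2 * r ^ 2) ^ 2 := hp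
    rw [Real.sq_sqrt (by positivity)] at hp'
    have e1 : sqd p (c.1 + ε * v.1, c.2 + ε * v.2) = sqd p c -
        2 * ε * (((p.1 : ℝ) - c.1) * v.1 + ((p.2 : ℝ) - c.2) * v.2) + ε ^ 2 * r ^ 2 := by
      rw [← hv]
      simp only [sqd]
      ring
    rw [e1] at hp'
    set w := ((p.1 : ℝ) - c.1) * v.1 + ((p.2 : ℝ) - c.2) * v.2 with hw
    rcases lt_trichotomy (sqd p c) (r ^ 2) with h1 | h1 | h1
    · exact Or.inl h1
    · right
      by_contra hT
      have h2 := h p h1 hT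
      rw [h1] at hp'
      nlinarith
    · exfalso
      have h2 := hgap p h1
      have h3 : 2 * w ≤ sqd p c + r ^ 2 := by
        rw [← hv, hw]
        simp only [sqd]
        nlinarith [sq_nonneg ((p.1 : ℝ) - c.1 - v.1), sq_nonneg ((p.2 : ℝ) - c.2 - v.2)]
      have h4 : ε * (2 * w) ≤ ε * (sqd p c + r ^ 2) := mul_le_mul_of_nonneg_left h3 hε0.le
      have h5 : (1 - ε) * (r ^ 2 + δ) ≤ (1 - ε) * sqd p c :=
        mul_le_mul_of_nonneg_left h2 (by linarith)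
      nlinarith

/-- one side of the circle has few points -/
theorem direction {c : ℝ × ℝ} {r : ℝ} (k : ℕ) (hk : (onCircle c r).ncard ≤ 2 * k + 2) :
    ∃ v : ℝ × ℝ, v.1 ^ 2 + v.2 ^ 2 = r ^ 2 ∧
      ({p ∈ onCircle c r | 0 < ((p.1 : ℝ) - c.1) * v.1 + ((p.2 : ℝ) - c.2) * v.2}).ncard ≤ k := by
  classical
  rcases Set.eq_empty_or_nonempty (onCircle c r) with h | ⟨x, hx⟩
  · refine ⟨(r, 0), by simp, ?_⟩
    rw [h]
    simp
  · have hfin := onCircle_finite c r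
    set u : ℝ × ℝ := (-((x.2 : ℝ) - c.2), (x.1 : ℝ) - c.1) with hu
    have hu1 : u.1 ^ 2 + u.2 ^ 2 = r ^ 2 := by
      have : ((x.1 : ℝ) - c.1) ^ 2 + ((x.2 : ℝ) - c.2) ^ 2 = r ^ 2 := hx
      rw [← this, hu]
      ring
    have hux : ((x.1 : ℝ) - c.1) * u.1 + ((x.2 : ℝ) - c.2) * u.2 = 0 := by
      rw [hu]
      ring
    set P := {p ∈ onCircle c r | 0 < ((p.1 : ℝ) - c.1) * u.1 + ((p.2 : ℝ) - c.2) * u.2} with hP
    set Q := {p ∈ onCircle c r | ((p.1 : ℝ) - c.1) * u.1 + ((p.2 : ℝ) - c.2) * u.2 < 0} with hQ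
    have hPf : P.Finite := hfin.subset fun _ hp => hp.1
    have hQf : Q.Finite := hfin.subset fun _ hp => hp.1
    have hdis : Disjoint P Q := by
      rw [Set.disjoint_left]
      intro p hp hq
      exact absurd hp.2 (not_lt.mpr hq.2.le)
    have hx1 : x ∉ P ∪ Q := by
      rintro (h1 | h1)
      · exact absurd h1.2 (by rw [hux]; exact lt_irrefl 0)
      · exact absurd h1.2 (by rw [hux]; exact lt_irrefl 0)
    have h1 : (insert x (P ∪ Q)).ncard ≤ (onCircle c r).ncard := by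
      refine Set.ncard_le_ncard ?_ hfin
      rintro p (rfl | hp | hp)
      · exact hx
      · exact hp.1
      · exact hp.1
    rw [Set.ncard_insert_of_notMem hx1 (hPf.union hQf), Set.ncard_union_eq hdis hPf hQf] at h1
    rcases le_or_gt P.ncard k with h2 | h2
    · exact ⟨u, hu1, h2⟩
    · refine ⟨(-u.1, -u.2), by rw [← hu1]; ring, ?_⟩
      have h3 : {p ∈ onCircle c r | 0 < ((p.1 : ℝ) - c.1) * (-u.1, -u.2).1 +
          ((p.2 : ℝ) - c.2) * (-u.1, -u.2).2} = Q := by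
        ext p
        simp only [hQ, Set.mem_ofPred_eq]
        constructor
        · rintro ⟨h4, h5⟩
          exact ⟨h4, by nlinarith⟩
        · rintro ⟨h4, h5⟩
          exact ⟨h4, by nlinarith⟩
      rw [h3]
      omega

/-- a slightly larger circle encloses at most `k` more points -/
theorem grow_count {c : ℝ × ℝ} {r : ℝ} (hr : 0 < r) (k : ℕ)
    (hk : (onCircle c r).ncard ≤ 2 * k + 2) :
    ∃ (c' : ℝ × ℝ) (r' : ℝ), r < r' ∧ (inside c' r').ncard ≤ (inside c r).ncard + k := by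
  obtain ⟨v, hv, hvk⟩ := direction k hk
  set T := {p ∈ onCircle c r | 0 < ((p.1 : ℝ) - c.1) * v.1 + ((p.2 : ℝ) - c.2) * v.2} with hT
  obtain ⟨c', r', h1, h2⟩ := grow hr T v hv (by
    intro p hp hpT
    by_contra hcon
    exact hpT ⟨hp, not_le.mp hcon⟩)
  refine ⟨c', r', h1, ?_⟩
  have hTf : T.Finite := (onCircle_finite c r).subset fun _ hp => hp.1
  calc (inside c' r').ncard ≤ (inside c r ∪ T).ncard :=
        Set.ncard_le_ncard h2 ((inside_finite c r).union hTf)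
    _ ≤ (inside c r).ncard + T.ncard := Set.ncard_union_le _ _
    _ ≤ _ := Nat.add_le_add_left hvk _

/-- near every point there is one with different distances from the lattice points -/
theorem exists_generic (c : ℝ × ℝ) {η : ℝ} (hη : 0 < η) : ∃ c' : ℝ × ℝ, |c'.1 - c.1| < η ∧
    |c'.2 - c.2| < η ∧ Function.Injective fun p => sqd p c' := by
  obtain ⟨x, hx, hx1, hx2⟩ := exists_irrational_btwn (show c.1 - η < c.1 + η by linarith)
  set B : Set ℝ := Set.range fun z : ℤ × ℤ × ℤ => ((z.2.2 : ℝ) - 2 * z.1 * x) / (2 * z.2.1) with hB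
  have hd : Dense Bᶜ := (Set.countable_range _).dense_compl ℝ
  obtain ⟨y, hy, hy1, hy2⟩ := hd.exists_between (show c.2 - η < c.2 + η by linarith)
  refine ⟨(x, y), abs_lt.mpr ⟨by simp only; linarith, by simp only; linarith⟩,
    abs_lt.mpr ⟨by simp only; linarith, by simp only; linarith⟩, ?_⟩
  intro p q hpq
  have h1 : ((p.1 : ℝ) - x) ^ 2 + ((p.2 : ℝ) - y) ^ 2 =
    ((q.1 : ℝ) - x) ^ 2 + ((q.2 : ℝ) - y) ^ 2 := hpq
  have h2 : 2 * ((p.1 - q.1 : ℤ) : ℝ) * x + 2 * ((p.2 - q.2 : ℤ) : ℝ) * y =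
      ((p.1 ^ 2 + p.2 ^ 2 - q.1 ^ 2 - q.2 ^ 2 : ℤ) : ℝ) := by
    push_cast
    linarith
  have hb : p.2 - q.2 = 0 := by
    by_contra hb
    apply hy
    refine ⟨(p.1 - q.1, p.2 - q.2, p.1 ^ 2 + p.2 ^ 2 - q.1 ^ 2 - q.2 ^ 2), ?_⟩
    have hb' : ((p.2 - q.2 : ℤ) : ℝ) ≠ 0 := by exact_mod_cast hb
    simp only
    rw [← h2, div_eq_iff (mul_ne_zero two_ne_zero hb')]
    ring
  have ha : p.1 - q.1 = 0 := by
    by_contra ha
    have ha' : ((p.1 - q.1 : ℤ) : ℝ) ≠ 0 := by exact_mod_cast ha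
    rw [hb, Int.cast_zero, mul_zero, zero_mul, add_zero] at h2
    apply hx
    refine ⟨((p.1 ^ 2 + p.2 ^ 2 - q.1 ^ 2 - q.2 ^ 2 : ℤ) : ℚ) / (2 * ((p.1 - q.1 : ℤ) : ℚ)), ?_⟩
    rw [Rat.cast_div, Rat.cast_mul, Rat.cast_intCast, Rat.cast_intCast, Rat.cast_ofNat, ← h2]
    field_simp
  exact Prod.ext (by omega) (by omega)

theorem inside_subset {c c' : ℝ × ℝ} {r s η : ℝ} (hs : 0 < s) (hη : 0 < η) (hη1 : η ≤ 1)
    (hη2 : η * (4 * s + 2) ≤ r ^ 2 - s ^ 2) (h1 : |c'.1 - c.1| < η) (h2 : |c'.2 - c.2| < η) :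
    inside c' s ⊆ inside c r := by
  intro p hp
  have hp' : ((p.1 : ℝ) - c'.1) ^ 2 + ((p.2 : ℝ) - c'.2) ^ 2 < s ^ 2 := hp
  set x := (p.1 : ℝ) - c'.1 with hx
  set y := (p.2 : ℝ) - c'.2 with hy
  have hx1 : |x| ≤ s := abs_le_of_sq_le_sq (by nlinarith [sq_nonneg y]) hs.le
  have hy1 : |y| ≤ s := abs_le_of_sq_le_sq (by nlinarith [sq_nonneg x]) hs.le
  set e := c'.1 - c.1 with he
  set f := c'.2 - c.2 with hf
  have e1 : sqd p c = x ^ 2 + y ^ 2 + 2 * (x * e) + 2 * (y * f) + e ^ 2 + f ^ 2 := by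
    simp only [sqd, hx, hy, he, hf]
    ring
  have h3 : x * e ≤ s * η := by
    refine (le_abs_self _).trans ?_
    rw [abs_mul]
    exact mul_le_mul hx1 h1.le (abs_nonneg _) hs.le
  have h4 : y * f ≤ s * η := by
    refine (le_abs_self _).trans ?_
    rw [abs_mul]
    exact mul_le_mul hy1 h2.le (abs_nonneg _) hs.le
  have h5 : e ^ 2 ≤ η := by
    rw [← sq_abs]
    nlinarith [abs_nonneg e]
  have h6 : f ^ 2 ≤ η := by
    rw [← sq_abs]
    nlinarith [abs_nonneg f]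
  change sqd p c < r ^ 2
  rw [e1]
  nlinarith

/-- growing a circle around a generic centre until it encloses one more point -/
theorem step {c : ℝ × ℝ} (hc : Function.Injective fun p => sqd p c) (t : ℝ) :
    ∃ t', t < t' ∧ (inside c t').ncard = (inside c t).ncard + 1 := by
  obtain ⟨p0, hp0⟩ : ∃ p0, p0 ∉ inside c t := (inside_finite c t).exists_notMem
  have hfin : {p : ℤ × ℤ | p ∉ inside c t ∧ sqd p c ≤ sqd p0 c}.Finite :=
    (finite_le c (sqd p0 c)).subset fun _ hp => hp.2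
  obtain ⟨p, hp, hmin⟩ := Set.exists_min_image _ (fun p => sqd p c) hfin ⟨p0, hp0, le_rfl⟩
  have hmin' : ∀ q, q ∉ inside c t → sqd p c ≤ sqd q c := by
    intro q hq
    rcases le_or_gt (sqd q c) (sqd p0 c) with h | h
    · exact hmin q ⟨hq, h⟩
    · exact hp.2.trans h.le
  have hpt : t ^ 2 ≤ sqd p c := not_lt.mp hp.1
  obtain ⟨δ, hδ, hgap⟩ := gap c (sqd p c)
  have hd0 : 0 ≤ sqd p c + δ := by nlinarith [sq_nonneg t]
  refine ⟨Real.sqrt (sqd p c + δ), Real.lt_sqrt_of_sq_lt (by linarith), ?_⟩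
  rw [← Set.ncard_insert_of_notMem hp.1 (inside_finite c t)]
  congr 1
  ext q
  have h1 : q ∈ inside c (Real.sqrt (sqd p c + δ)) ↔ sqd q c < sqd p c + δ := by
    change sqd q c < Real.sqrt (sqd p c + δ) ^ 2 ↔ _
    rw [Real.sq_sqrt hd0]
  rw [h1, Set.mem_insert_iff]
  constructor
  · intro h2
    by_contra hcon
    push Not at hcon
    have h3 := hmin' q hcon.2
    rcases h3.lt_or_eq with h4 | h4
    · exact absurd (hgap q h4) (not_le.mpr h2)
    · exact hcon.1 (hc h4.symm)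
  · rintro (rfl | h2)
    · linarith
    · have h3 : sqd q c < t ^ 2 := h2
      linarith

/-- a circle with at most `k` points can be replaced by one with exactly `k` points, of almost the
same radius or larger -/
theorem fill {c : ℝ × ℝ} {r s : ℝ} {k : ℕ} (hs : 0 < s) (hsr : s < r)
    (h : (inside c r).ncard ≤ k) : ∃ (c' : ℝ × ℝ) (r' : ℝ), s < r' ∧ (inside c' r').ncard = k := by
  set s1 := (s + r) / 2 with hs1
  have h1 : s < s1 := by rw [hs1]; linarith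
  have h2 : s1 < r := by rw [hs1]; linarith
  have h3 : 0 < r ^ 2 - s1 ^ 2 := by nlinarith
  set η := min 1 ((r ^ 2 - s1 ^ 2) / (4 * s1 + 2)) with hη
  have h4 : (0 : ℝ) < 4 * s1 + 2 := by linarith
  have hη0 : 0 < η := lt_min one_pos (div_pos h3 h4)
  have hη1 : η ≤ 1 := min_le_left _ _
  have hη2 : η * (4 * s1 + 2) ≤ r ^ 2 - s1 ^ 2 := by
    rw [← le_div_iff₀ h4]
    exact min_le_right _ _
  obtain ⟨c', hc1, hc2, hinj⟩ := exists_generic c hη0
  have h5 := inside_subset (hs.trans h1) hη0 hη1 hη2 hc1 hc2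
  have h6 : (inside c' s1).ncard ≤ k := (Set.ncard_le_ncard h5 (inside_finite c r)).trans h
  have key : ∀ j : ℕ, ∀ t, s < t → (inside c' t).ncard + j = k →
      ∃ r', s < r' ∧ (inside c' r').ncard = k := by
    intro j
    induction j with
    | zero => exact fun t ht h => ⟨t, ht, h⟩
    | succ j ih =>
      intro t ht h
      obtain ⟨t', ht1, ht2⟩ := step hinj t
      exact ih t' (ht.trans ht1) (by omega)
  obtain ⟨r', hr1, hr2⟩ := key (k - (inside c' s1).ncard) s1 h1 (by omega)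
  exact ⟨c', r', hr1, hr2⟩

theorem encloses_iff {n : ℕ} {c : ℝ × ℝ} {r : ℝ} :
    Encloses n c r ↔ 0 < r ∧ (inside c r).ncard = n := by
  rw [Encloses, encard_inside]
  exact and_congr_right fun _ => Nat.cast_inj

/-- an MC-circle of `n` is largest among the circles enclosing at most `n` points -/
theorem IsMCCircle.le_of_ncard_le {n : ℕ} {c : ℝ × ℝ} {r : ℝ} (h : IsMCCircle n c r)
    {c' : ℝ × ℝ} {r' : ℝ} (h' : (inside c' r').ncard ≤ n) : r' ≤ r := by
  by_contra hcon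
  rw [not_le] at hcon
  obtain ⟨c2, r2, h1, h2⟩ := fill h.1.1 hcon h'
  exact absurd (h.2 c2 r2 (encloses_iff.mpr ⟨h.1.1.trans h1, h2⟩)) (not_le.mpr h1)

theorem IsMCCircle.ncard_inside {n : ℕ} {c : ℝ × ℝ} {r : ℝ} (h : IsMCCircle n c r) :
    (inside c r).ncard = n := (encloses_iff.mp h.1).2

/-- an MC-circle passes through at least three lattice points -/
theorem IsMCCircle.three_le {n : ℕ} {c : ℝ × ℝ} {r : ℝ} (h : IsMCCircle n c r) :
    3 ≤ (onCircle c r).ncard := by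
  by_contra hcon
  obtain ⟨c', r', h1, h2⟩ := grow_count (c := c) h.1.1 0 (by omega)
  rw [h.ncard_inside, add_zero] at h2
  exact absurd (h.le_of_ncard_le h2) (not_le.mpr h1)

/-- MC-radii increase strictly after a number with an MC-circle through at most four points -/
theorem IsMCCircle.lt {n m : ℕ} {c c' : ℝ × ℝ} {r r' : ℝ} (h : IsMCCircle n c r)
    (h' : IsMCCircle m c' r') (hnm : n < m) (h4 : (onCircle c r).ncard ≤ 4) : r < r' := by
  obtain ⟨c2, r2, h1, h2⟩ := grow_count (c := c) h.1.1 1 (by omega)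
  rw [h.ncard_inside] at h2
  exact h1.trans_le (h'.le_of_ncard_le (c' := c2) (by omega))

/-- the radius is bounded by the number of enclosed points -/
theorem rad_bound {n : ℕ} {c : ℝ × ℝ} {r : ℝ} (h : (inside c r).ncard ≤ n) :
    r ^ 2 ≤ 4 * n + 4 := by
  by_contra hcon
  rw [not_le] at hcon
  set s := Nat.sqrt n with hs
  have h1 : n < (s + 1) * (s + 1) := Nat.lt_succ_sqrt n
  have h2 : s * s ≤ n := Nat.sqrt_le n
  have h3 : ((Set.univ : Set (Fin (s + 1) × Fin (s + 1)))).ncard ≤ (inside c r).ncard := by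
    refine Set.ncard_le_ncard_of_injOn (fun z => (⌈c.1⌉ + (z.1 : ℕ), ⌈c.2⌉ + (z.2 : ℕ))) ?_ ?_
      (inside_finite c r)
    · intro z _
      have key : ∀ (x : ℝ) (i : Fin (s + 1)), ((⌈x⌉ + ((i : ℕ) : ℤ) : ℤ) - x : ℝ) ^ 2 ≤
          ((s : ℝ) + 1) ^ 2 := by
        intro x i
        have h4 := Int.le_ceil x
        have h5 := Int.ceil_lt_add_one x
        have h6 : ((i : ℕ) : ℝ) ≤ s := by exact_mod_cast Nat.lt_succ_iff.mp i.2
        have h7 : (0 : ℝ) ≤ ((i : ℕ) : ℝ) := by positivity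
        push_cast
        apply pow_le_pow_left₀
        · linarith
        · linarith
      change ((⌈c.1⌉ + ((z.1 : ℕ) : ℤ) : ℤ) - c.1 : ℝ) ^ 2 +
        ((⌈c.2⌉ + ((z.2 : ℕ) : ℤ) : ℤ) - c.2 : ℝ) ^ 2 < r ^ 2
      have h4 := key c.1 z.1
      have h5 := key c.2 z.2
      have h6 : ((s : ℝ) + 1) ^ 2 ≤ 2 * n + 2 := by
        have : (s : ℝ) * s ≤ n := by exact_mod_cast h2
        nlinarith [sq_nonneg ((s : ℝ) - 1)]
      linarith
    · intro z _ z' _ hz
      have h4 := Prod.mk.inj hz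
      refine Prod.ext (Fin.ext ?_) (Fin.ext ?_)
      · have := h4.1
        omega
      · have := h4.2
        omega
  rw [Set.ncard_univ, Nat.card_eq_fintype_card, Fintype.card_prod, Fintype.card_fin] at h3
  omega

end Pool.Agent.Lib.MP_52d52b_nt
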