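import Mathlib

/-!
# Sums of two squares have density zero

A sieve for residue classes modulo coprime integers, and the divergence of the sum of the inverses
of the primes in a residue class.
-/

open ArithmeticFunction vonMangoldt Filter Topology

open scoped Classical

namespace Pool.Agent.Lib.MP_52d52b_nt

set_option linter.style.haveILetI false
set_option linter.unusedSectionVars false

/-- The number of integers in a residue class in an interval. -/
lemma card_class7 {N : ℕ} (hN : 0 < N) (H : ℕ) (v : ZMod N) :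
    (((Finset.Icc (-(H : ℤ)) H).filter fun x : ℤ => (x : ZMod N) = v).card : ℝ) ≤
      (2 * H + 1) / N + 1 := by
  haveI : NeZero N := ⟨hN.ne'⟩
  have h1 : (Finset.Icc (-(H : ℤ)) H).filter (fun x : ℤ => (x : ZMod N) = v) =
      (Finset.Ico (-(H : ℤ)) (H + 1)).filter (fun x : ℤ => x ≡ (v.val : ℤ) [ZMOD (N : ℤ)]) := by
    ext x
    rw [Finset.mem_filter, Finset.mem_filter, Finset.mem_Icc, Finset.mem_Ico,
      ← ZMod.intCast_eq_intCast_iff, Int.lt_add_one_iff]
    simp
  rw [h1]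
  have h2 := Int.Ico_filter_modEq_card (-(H : ℤ)) (H + 1) (r := (N : ℤ)) (by exact_mod_cast hN)
    (v.val : ℤ)
  have h3 : (((Finset.Ico (-(H : ℤ)) (H + 1)).filter
      (fun x : ℤ => x ≡ (v.val : ℤ) [ZMOD (N : ℤ)])).card : ℤ) ≤ ⌊((2 * H + 1 : ℚ) / N + 1)⌋ := by
    rw [h2]
    apply max_le
    · rw [Int.le_floor]
      push_cast
      have h4 := Int.ceil_lt_add_one (((H : ℚ) + 1 - v.val) / N)
      have h5 := Int.le_ceil ((-(H : ℚ) - v.val) / N)
      have h6 : (2 * (H : ℚ) + 1) / N = ((H : ℚ) + 1 - v.val) / N - (-(H : ℚ) - v.val) / N := by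
        ring
      rw [h6]
      linarith
    · apply Int.floor_nonneg.mpr
      positivity
  have h4 : ((((Finset.Ico (-(H : ℤ)) (H + 1)).filter
      (fun x : ℤ => x ≡ (v.val : ℤ) [ZMOD (N : ℤ)])).card : ℤ) : ℚ) ≤ (2 * H + 1 : ℚ) / N + 1 :=
    (Int.cast_le.mpr h3).trans (Int.floor_le _)
  have h5 : ((((((Finset.Ico (-(H : ℤ)) (H + 1)).filter
      (fun x : ℤ => x ≡ (v.val : ℤ) [ZMOD (N : ℤ)])).card : ℤ) : ℚ)) : ℝ) ≤
      (((2 * H + 1 : ℚ) / N + 1 : ℚ) : ℝ) := by exact_mod_cast h4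
  push_cast at h5
  exact h5

/-- The number of integral vectors in a box whose reduction lies in a given set. -/
lemma card_box7 {N : ℕ} (hN : 0 < N) (m H : ℕ) (A : Finset (Fin m → ZMod N)) :
    (({a : Fin m → ℤ | (∀ i, |a i| ≤ H) ∧ (fun i => (a i : ZMod N)) ∈ A}.ncard : ℝ)) ≤
      A.card * ((2 * H + 1) / N + 1) ^ m := by
  have h1 : {a : Fin m → ℤ | (∀ i, |a i| ≤ H) ∧ (fun i => (a i : ZMod N)) ∈ A} ⊆
      (A.biUnion fun v => Fintype.piFinset fun i =>
        (Finset.Icc (-(H : ℤ)) H).filter fun x : ℤ => (x : ZMod N) = v i : Finset (Fin m → ℤ)) := by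
    rintro a ⟨h2, h3⟩
    rw [Finset.coe_biUnion, Set.mem_iUnion₂]
    refine ⟨_, h3, ?_⟩
    rw [Finset.mem_coe, Fintype.mem_piFinset]
    intro i
    rw [Finset.mem_filter, Finset.mem_Icc]
    exact ⟨abs_le.mp (h2 i), rfl⟩
  have h2 := Set.ncard_le_ncard h1 (Finset.finite_toSet _)
  rw [Set.ncard_coe_finset] at h2
  have h3 : ((A.biUnion fun v => Fintype.piFinset fun i =>
        (Finset.Icc (-(H : ℤ)) H).filter fun x : ℤ => (x : ZMod N) = v i).card : ℝ) ≤
      ∑ v ∈ A, ((Fintype.piFinset fun i =>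
        (Finset.Icc (-(H : ℤ)) H).filter fun x : ℤ => (x : ZMod N) = v i).card : ℝ) := by
    exact_mod_cast Finset.card_biUnion_le
  refine (by exact_mod_cast h2 : _ ≤ _).trans (h3.trans ?_)
  rw [← nsmul_eq_mul]
  apply Finset.sum_le_card_nsmul
  intro v _
  rw [Fintype.card_piFinset]
  push_cast
  calc ∏ i, (((Finset.Icc (-(H : ℤ)) H).filter fun x : ℤ => (x : ZMod N) = v i).card : ℝ)
      ≤ ∏ _i : Fin m, ((2 * (H : ℝ) + 1) / N + 1) :=
        Finset.prod_le_prod (fun _ _ => by positivity) (fun i _ => card_class7 hN H (v i))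
    _ = _ := by rw [Finset.prod_const, Finset.card_univ, Fintype.card_fin]

/-- The number of the residue classes which avoid given sets modulo several coprime integers. -/
lemma card_avoidB7 (m : ℕ) (M : ℕ → ℕ) (D : ∀ p : ℕ, Set (Fin m → ZMod (M p))) (δ : ℕ → ℝ)
    (S : Finset ℕ) (hM0 : ∀ p ∈ S, 0 < M p)
    (hcop : ∀ p ∈ S, ∀ q ∈ S, p ≠ q → Nat.Coprime (M p) (M q))
    (hD : ∀ p ∈ S, δ p * (M p : ℝ) ^ m ≤ (D p).ncard) {N : ℕ}
    (hN : N = ∏ p ∈ S, M p) :
    ∃ (A : Finset (Fin m → ZMod N)),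
      (A.card : ℝ) ≤ (∏ p ∈ S, (1 - δ p)) * (N : ℝ) ^ m ∧
      ∀ a : Fin m → ℤ, (∀ p ∈ S, (fun i => (a i : ZMod (M p))) ∉ D p) →
        (fun i => (a i : ZMod N)) ∈ A := by
  haveI : ∀ p : S, NeZero (M p) := fun p => ⟨(hM0 p p.2).ne'⟩
  haveI : NeZero N := ⟨by
    rw [hN]
    exact Finset.prod_ne_zero_iff.mpr fun p hp => (hM0 p hp).ne'⟩
  have hdvd : ∀ p : S, M p ∣ N := fun p => by
    rw [hN]
    exact Finset.dvd_prod_of_mem _ p.2
  let ψ : (Fin m → ZMod N) → ∀ p : S, (Fin m → ZMod (M p)) :=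
    fun v p i => ZMod.castHom (hdvd p) (ZMod (M p)) (v i)
  have hψ : Function.Injective ψ := by
    intro v w h
    funext i
    have h1 : ∀ p : S, ZMod.castHom (hdvd p) (ZMod (M p)) (v i - w i) = 0 := by
      intro p
      rw [map_sub, sub_eq_zero]
      exact congrFun (congrFun h p) i
    have h2 : ∀ p ∈ S, M p ∣ (v i - w i).val := by
      intro p hp
      have h3 := h1 ⟨p, hp⟩
      rw [ZMod.castHom_apply, ZMod.cast_eq_val, ZMod.natCast_eq_zero_iff] at h3
      exact h3
    have h3 : N ∣ (v i - w i).val := by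
      have h5 : ∏ p ∈ S, M p ∣ (v i - w i).val := by
        apply Finset.prod_dvd_of_isRelPrime _ h2
        intro p hp q hq hpq
        exact Nat.coprime_iff_isRelPrime.mp (hcop p hp q hq hpq)
      rwa [← hN] at h5
    have h4 : (v i - w i).val = 0 := Nat.eq_zero_of_dvd_of_lt h3 (ZMod.val_lt _)
    rw [ZMod.val_eq_zero] at h4
    exact sub_eq_zero.mp h4
  refine ⟨Finset.univ.filter fun v => ∀ p : S, ψ v p ∉ D p, ?_, ?_⟩
  · have h1 : ((Finset.univ.filter fun v => ∀ p : S, ψ v p ∉ D p).card : ℝ) ≤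
        ((Fintype.piFinset fun p : S =>
          Finset.univ.filter fun w : Fin m → ZMod (M p) => w ∉ D p).card : ℝ) := by
      rw [Nat.cast_le, ← Finset.card_image_of_injective _ hψ]
      apply Finset.card_le_card
      intro x hx
      obtain ⟨v, hv, rfl⟩ := Finset.mem_image.mp hx
      rw [Finset.mem_filter] at hv
      rw [Fintype.mem_piFinset]
      intro p
      rw [Finset.mem_filter]
      exact ⟨Finset.mem_univ _, hv.2 p⟩
    refine h1.trans ?_
    rw [Fintype.card_piFinset]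
    push_cast
    have h2 : ∀ p : S, ((Finset.univ.filter fun w : Fin m → ZMod (M p) => w ∉ D p).card : ℝ) ≤
        (1 - δ p) * (M p : ℝ) ^ m := by
      intro p
      have h3 := hD p p.2
      have h4 : (D p).ncard = (Finset.univ.filter fun w : Fin m → ZMod (M p) => w ∈ D p).card := by
        rw [← Set.ncard_coe_finset]
        congr 1
        ext w
        simp
      have h5 := Finset.card_filter_add_card_filter_not
        (s := (Finset.univ : Finset (Fin m → ZMod (M p)))) (fun w => w ∈ D p)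
      rw [Finset.card_univ, Fintype.card_fun, ZMod.card, Fintype.card_fin] at h5
      have h6 : (((Finset.univ.filter fun w : Fin m → ZMod (M p) => w ∈ D p).card : ℝ)) +
          ((Finset.univ.filter fun w : Fin m → ZMod (M p) => w ∉ D p).card : ℝ) =
          (M p : ℝ) ^ m := by exact_mod_cast h5
      rw [h4] at h3
      linarith
    calc ∏ p : S, ((Finset.univ.filter fun w : Fin m → ZMod (M p) => w ∉ D p).card : ℝ)
        ≤ ∏ p : S, ((1 - δ p) * (M p : ℝ) ^ m) :=
          Finset.prod_le_prod (fun _ _ => by positivity) (fun p _ => h2 p)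
      _ = _ := by
          rw [Finset.prod_mul_distrib, Finset.prod_coe_sort S (fun p => (1 - δ p)), hN,
            Finset.prod_pow, Finset.prod_coe_sort S (fun p => (M p : ℝ))]
          push_cast
          rfl
  · intro a ha
    rw [Finset.mem_filter]
    refine ⟨Finset.mem_univ _, fun p => ?_⟩
    have h1 : ψ (fun i => (a i : ZMod N)) p = fun i => (a i : ZMod (M p)) := by
      funext i
      exact map_intCast _ _
    rw [h1]
    exact ha p p.2

/-- **Density zero**, for residue classes modulo coprime integers whose proportions have a divergent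
sum. -/
theorem density_crtB7 (m : ℕ) (M : ℕ → ℕ) (D : ∀ p : ℕ, Set (Fin m → ZMod (M p))) (δ : ℕ → ℝ)
    (P : Set ℕ) (hM0 : ∀ p ∈ P, 0 < M p)
    (hcop : ∀ p ∈ P, ∀ q ∈ P, p ≠ q → Nat.Coprime (M p) (M q))
    (hδ : ∀ T : ℝ, ∃ S : Finset ℕ, (∀ p ∈ S, p ∈ P) ∧ T ≤ ∑ p ∈ S, δ p)
    (hD : ∀ p ∈ P, δ p * (M p : ℝ) ^ m ≤ (D p).ncard) (Good : (Fin m → ℤ) → Prop)
    (hGood : ∀ a, ∀ p ∈ P, (fun i => (a i : ZMod (M p))) ∈ D p → Good a) :
    Tendsto (fun H : ℕ => ({a : Fin m → ℤ | (∀ i, |a i| ≤ H) ∧ ¬ Good a}.ncard : ℝ) /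
      (2 * H + 1) ^ m) atTop (𝓝 0) := by
  have hδ1 : ∀ p ∈ P, δ p ≤ 1 := by
    intro p hp
    haveI : NeZero (M p) := ⟨(hM0 p hp).ne'⟩
    have h1 := hD p hp
    have h2 : ((D p).ncard : ℝ) ≤ (M p : ℝ) ^ m := by
      have h3 : (D p).ncard ≤ (Set.univ : Set (Fin m → ZMod (M p))).ncard :=
        Set.ncard_le_ncard (Set.subset_univ _)
      rw [Set.ncard_univ, Nat.card_eq_fintype_card, Fintype.card_fun, ZMod.card,
        Fintype.card_fin] at h3
      exact_mod_cast h3
    have h4 : (0 : ℝ) < (M p : ℝ) ^ m := by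
      have : (0 : ℝ) < M p := by exact_mod_cast hM0 p hp
      positivity
    nlinarith
  rw [Metric.tendsto_atTop]
  intro ε hε
  obtain ⟨S, hSP, hST⟩ := hδ (- Real.log (ε / 2))
  obtain ⟨N, hN⟩ : ∃ N, N = ∏ p ∈ S, M p := ⟨_, rfl⟩
  obtain ⟨A, hA1, hA2⟩ := card_avoidB7 m M D δ S (fun p hp => hM0 p (hSP p hp))
    (fun p hp q hq => hcop p (hSP p hp) q (hSP q hq)) (fun p hp => hD p (hSP p hp)) hN
  set t := ∏ p ∈ S, (1 - δ p) with htdef
  have ht : t < ε := by
    have h1 : t ≤ ∏ p ∈ S, Real.exp (- δ p) := by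
      refine Finset.prod_le_prod (fun p hp => by linarith [hδ1 p (hSP p hp)]) fun p _ => ?_
      linarith [Real.add_one_le_exp (- δ p)]
    rw [← Real.exp_sum, Finset.sum_neg_distrib] at h1
    have h2 : Real.exp (- ∑ p ∈ S, δ p) ≤ ε / 2 := by
      rw [← Real.le_log_iff_exp_le (by positivity)]
      linarith
    linarith
  have hN0 : 0 < N := by
    rw [hN]
    exact Finset.prod_pos fun p hp => hM0 p (hSP p hp)
  have hNR : (0 : ℝ) < N := by exact_mod_cast hN0
  have hlim : Tendsto (fun H : ℕ => t * (1 + N / (2 * (H : ℝ) + 1)) ^ m) atTop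
      (𝓝 (t * (1 + 0) ^ m)) := by
    apply Tendsto.const_mul
    apply Tendsto.pow
    apply Tendsto.const_add
    apply Tendsto.div_atTop tendsto_const_nhds
    exact tendsto_atTop_add_const_right _ _
      (Tendsto.const_mul_atTop (by norm_num) tendsto_natCast_atTop_atTop)
  rw [add_zero, one_pow, mul_one] at hlim
  obtain ⟨H0, hH0⟩ := (hlim.eventually_lt_const ht).exists_forall_of_atTop
  refine ⟨H0, fun H hH => ?_⟩
  have hpos : (0 : ℝ) < (2 * (H : ℝ) + 1) ^ m := by positivity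
  rw [Real.dist_eq, sub_zero, abs_of_nonneg (by positivity), div_lt_iff₀ hpos]
  have h1 : {a : Fin m → ℤ | (∀ i, |a i| ≤ H) ∧ ¬ Good a} ⊆
      {a : Fin m → ℤ | (∀ i, |a i| ≤ H) ∧ (fun i => (a i : ZMod N)) ∈ A} := by
    rintro a ⟨h2, h3⟩
    refine ⟨h2, hA2 a fun p hp hap => h3 (hGood a p (hSP p hp) hap)⟩
  have hfin : {a : Fin m → ℤ | (∀ i, |a i| ≤ H) ∧ (fun i => (a i : ZMod N)) ∈ A}.Finite := by
    apply Set.Finite.subset (Finset.finite_toSet
      (Fintype.piFinset fun _ : Fin m => Finset.Icc (-(H : ℤ)) H))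
    rintro a ⟨h2, -⟩
    rw [Finset.mem_coe, Fintype.mem_piFinset]
    intro i
    rw [Finset.mem_Icc]
    exact abs_le.mp (h2 i)
  have h2 : (({a : Fin m → ℤ | (∀ i, |a i| ≤ H) ∧ ¬ Good a}.ncard : ℝ)) ≤
      A.card * ((2 * H + 1) / N + 1) ^ m :=
    (by exact_mod_cast Set.ncard_le_ncard h1 hfin : _ ≤ _).trans (card_box7 hN0 m H A)
  refine lt_of_le_of_lt h2 ?_
  have h3 : (A.card : ℝ) * ((2 * H + 1) / N + 1) ^ m ≤
      (t * (1 + N / (2 * (H : ℝ) + 1)) ^ m) * (2 * (H : ℝ) + 1) ^ m := by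
    have h4 : (0 : ℝ) ≤ ((2 * H + 1) / N + 1) ^ m := by positivity
    refine (mul_le_mul_of_nonneg_right hA1 h4).trans ?_
    rw [mul_assoc, mul_assoc, ← mul_pow, ← mul_pow]
    have h5 : (N : ℝ) * ((2 * H + 1) / N + 1) = (1 + N / (2 * (H : ℝ) + 1)) * (2 * H + 1) := by
      field_simp
    rw [h5]
  exact lt_of_le_of_lt h3 (mul_lt_mul_of_pos_right (hH0 H hH) hpos)

/-- The sums of `c / p` over finite sets of large primes are unbounded. -/
theorem sum_primes_unbounded7 {c : ℝ} (hc : 0 < c) (P₀ : ℕ) (T : ℝ) :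
    ∃ S : Finset ℕ, (∀ p ∈ S, p.Prime ∧ P₀ ≤ p) ∧ T ≤ ∑ p ∈ S, c / p := by
  by_contra hcon
  push Not at hcon
  apply not_summable_one_div_on_primes
  apply summable_of_sum_le (c := T / c + ∑ p ∈ Finset.range P₀, (1 : ℝ) / p)
  · intro n
    exact Set.indicator_nonneg (fun _ _ => by positivity) n
  · intro s
    have h1 := hcon (s.filter fun p => p.Prime ∧ P₀ ≤ p) fun p hp => (Finset.mem_filter.mp hp).2
    have h2 : ∑ x ∈ s, Set.indicator {p : ℕ | p.Prime} (fun n : ℕ => (1 : ℝ) / n) x ≤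
        ∑ x ∈ s.filter (fun p => p.Prime ∧ P₀ ≤ p), (1 : ℝ) / x +
          ∑ p ∈ Finset.range P₀, (1 : ℝ) / p := by
      have h3 : ∑ x ∈ s, Set.indicator {p : ℕ | p.Prime} (fun n : ℕ => (1 : ℝ) / n) x =
          ∑ x ∈ s.filter (fun p => p.Prime), (1 : ℝ) / x := by
        rw [Finset.sum_filter]
        refine Finset.sum_congr rfl fun x _ => ?_
        rw [Set.indicator_apply]
        rfl
      rw [h3]
      have h4 : s.filter (fun p => p.Prime) ⊆
          s.filter (fun p => p.Prime ∧ P₀ ≤ p) ∪ Finset.range P₀ := by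
        intro p hp
        rw [Finset.mem_filter] at hp
        rw [Finset.mem_union, Finset.mem_filter, Finset.mem_range]
        rcases le_or_gt P₀ p with h | h
        · exact Or.inl ⟨hp.1, hp.2, h⟩
        · exact Or.inr h
      refine (Finset.sum_le_sum_of_subset_of_nonneg h4 fun _ _ _ => by positivity).trans ?_
      have h5 := Finset.sum_union_inter (s₁ := s.filter (fun p => p.Prime ∧ P₀ ≤ p))
        (s₂ := Finset.range P₀) (f := fun x : ℕ => (1 : ℝ) / x)
      have h6 : (0 : ℝ) ≤ ∑ x ∈ s.filter (fun p => p.Prime ∧ P₀ ≤ p) ∩ Finset.range P₀,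
        (1 : ℝ) / x := Finset.sum_nonneg fun _ _ => by positivity
      linarith
    have h7 : ∑ x ∈ s.filter (fun p => p.Prime ∧ P₀ ≤ p), (1 : ℝ) / x ≤ T / c := by
      rw [le_div_iff₀ hc, Finset.sum_mul]
      refine le_trans (le_of_eq ?_) h1.le
      refine Finset.sum_congr rfl fun x _ => ?_
      ring
    linarith

section

variable {q : ℕ} {a : ZMod q}

/-- The set of the primes in the residue class. -/
def resPrimes14 (a : ZMod q) : Set ℕ := {p : ℕ | p.Prime ∧ (p : ZMod q) = a}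

lemma summable_residue_rpow14 {x : ℝ} (hx : 1 < x) :
    Summable fun n : ℕ => residueClass a n / (n : ℝ) ^ x :=
  LSeries.summable_real_of_abscissaOfAbsConv_lt <|
    (abscissaOfAbsConv_residueClass_le_one a).trans_lt <| by exact_mod_cast hx

lemma summable_log14 {x : ℝ} (hx : 1 < x) :
    Summable fun n : ℕ => (resPrimes14 a).indicator (fun n : ℕ => Real.log n / (n : ℝ) ^ x) n := by
  refine Summable.of_nonneg_of_le (fun n => Set.indicator_nonneg (fun n _ => by positivity) n)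
    (fun n => ?_) (summable_residue_rpow14 (a := a) hx)
  by_cases hn : n ∈ resPrimes14 a
  · rw [Set.indicator_of_mem hn]
    have h1 : residueClass a n = Real.log n := by
      rw [residueClass, Set.indicator_of_mem (show n ∈ {n : ℕ | (n : ZMod q) = a} from hn.2),
        vonMangoldt_apply_prime hn.1]
    rw [h1]
  · rw [Set.indicator_of_notMem hn]
    exact div_nonneg (residueClass_nonneg a n) (by positivity)

/-- The lower bound for the primes alone. -/
lemma log_lower14 [NeZero q] (ha : IsUnit a) :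
    ∃ C : ℝ, ∀ x ∈ Set.Ioc (1 : ℝ) 2, (q.totient : ℝ)⁻¹ / (x - 1) - C ≤
      ∑' n : ℕ, (resPrimes14 a).indicator (fun n : ℕ => Real.log n / (n : ℝ) ^ x) n := by
  obtain ⟨C, hC⟩ := LSeries_residueClass_lower_bound ha
  refine ⟨C + ∑' n : ℕ, (if n.Prime then 0 else residueClass a n) / n, fun x hx => ?_⟩
  have h1 := hC hx
  have h2 : ∑' n : ℕ, residueClass a n / (n : ℝ) ^ x ≤
      ∑' n : ℕ, ((resPrimes14 a).indicator (fun n : ℕ => Real.log n / (n : ℝ) ^ x) n +
        (if n.Prime then 0 else residueClass a n) / n) := by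
    refine Summable.tsum_le_tsum (fun n => ?_) (summable_residue_rpow14 hx.1)
      ((summable_log14 hx.1).add (summable_residueClass_non_primes_div a))
    by_cases hp : n.Prime
    · rw [if_pos hp, zero_div, add_zero]
      by_cases hna : (n : ZMod q) = a
      · rw [Set.indicator_of_mem (show n ∈ resPrimes14 a from ⟨hp, hna⟩), residueClass,
          Set.indicator_of_mem (show n ∈ {n : ℕ | (n : ZMod q) = a} from hna),
          vonMangoldt_apply_prime hp]
      · rw [residueClass, Set.indicator_of_notMem (show n ∉ {n : ℕ | (n : ZMod q) = a} from hna),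
          zero_div]
        exact Set.indicator_nonneg (fun n _ => by positivity) n
    · rw [if_neg hp]
      have h3 : 0 ≤ (resPrimes14 a).indicator (fun n : ℕ => Real.log n / (n : ℝ) ^ x) n :=
        Set.indicator_nonneg (fun n _ => by positivity) n
      rcases n.eq_zero_or_pos with rfl | hn
      · simpa using h3
      · have h4 : residueClass a n / (n : ℝ) ^ x ≤ residueClass a n / n := by
          refine div_le_div_of_nonneg_left (residueClass_nonneg a _) (mod_cast hn) ?_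
          conv_lhs => rw [← Real.rpow_one n]
          exact Real.rpow_le_rpow_of_exponent_le (by exact_mod_cast hn) hx.1.le
        linarith
  rw [Summable.tsum_add (summable_log14 hx.1) (summable_residueClass_non_primes_div a)] at h2
  linarith

/-- The mean value inequality. -/
lemma mean_value14 {p : ℕ} (hp : 0 < p) {x h : ℝ} :
    h * (Real.log p / (p : ℝ) ^ x) ≤ 1 / (p : ℝ) ^ (x - h) - 1 / (p : ℝ) ^ x := by
  have hp0 : (0 : ℝ) < p := by exact_mod_cast hp
  have h1 : 1 / (p : ℝ) ^ (x - h) = (p : ℝ) ^ h / (p : ℝ) ^ x := by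
    rw [Real.rpow_sub hp0, one_div_div]
  have h2 : 1 + h * Real.log p ≤ (p : ℝ) ^ h := by
    rw [Real.rpow_def_of_pos hp0]
    have := Real.add_one_le_exp (Real.log p * h)
    linarith
  rw [h1, ← sub_div, mul_div_assoc']
  apply div_le_div_of_nonneg_right _ (by positivity)
  linarith

/-- **The sum of the inverses of the primes in a residue class diverges.** -/
theorem not_summable_residue14 [NeZero q] (ha : IsUnit a) :
    ¬ Summable fun n : ℕ => (resPrimes14 a).indicator (fun n : ℕ => (1 : ℝ) / n) n := by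
  intro hS
  obtain ⟨C, hC⟩ := log_lower14 ha
  have hq : 0 < (q.totient : ℝ)⁻¹ := inv_pos.mpr (mod_cast q.totient.pos_of_neZero)
  set c : ℝ := (q.totient : ℝ)⁻¹ with hc
  have hle : ∀ x : ℝ, 1 ≤ x → ∀ n : ℕ,
      (resPrimes14 a).indicator (fun n : ℕ => (1 : ℝ) / (n : ℝ) ^ x) n ≤
        (resPrimes14 a).indicator (fun n : ℕ => (1 : ℝ) / n) n := by
    intro x hx n
    apply Set.indicator_le_indicator' (fun hn => ?_)
    have h1 : (1 : ℝ) ≤ n := by exact_mod_cast hn.1.one_le
    apply one_div_le_one_div_of_le (by linarith)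
    conv_lhs => rw [← Real.rpow_one (n : ℝ)]
    exact Real.rpow_le_rpow_of_exponent_le h1 hx
  have hsum : ∀ x : ℝ, 1 ≤ x → Summable fun n : ℕ =>
      (resPrimes14 a).indicator (fun n : ℕ => (1 : ℝ) / (n : ℝ) ^ x) n := fun x hx =>
    Summable.of_nonneg_of_le (fun n => Set.indicator_nonneg (fun n _ => by positivity) n)
      (hle x hx) hS
  let G : ℝ → ℝ := fun x => ∑' n : ℕ,
    (resPrimes14 a).indicator (fun n : ℕ => (1 : ℝ) / (n : ℝ) ^ x) n
  have hG : ∀ x, 1 ≤ x → G x ≤ ∑' n : ℕ, (resPrimes14 a).indicator (fun n : ℕ => (1 : ℝ) / n) n :=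
    fun x hx => Summable.tsum_le_tsum (hle x hx) (hsum x hx) hS
  have hG0 : ∀ x, 0 ≤ G x := fun x => tsum_nonneg fun n =>
    Set.indicator_nonneg (fun n _ => by positivity) n
  -- one step
  have hstep : ∀ x h : ℝ, 1 < x → x ≤ 2 → 0 ≤ h → 1 ≤ x - h →
      h * (c / (x - 1) - C) ≤ G (x - h) - G x := by
    intro x h hx hx2 hh hxh
    have h1 := mul_le_mul_of_nonneg_left (hC x ⟨hx, hx2⟩) hh
    refine h1.trans ?_
    rw [← tsum_mul_left, ← (hsum _ hxh).tsum_sub (hsum _ hx.le)]
    refine Summable.tsum_le_tsum (fun n => ?_) ((summable_log14 hx).mul_left h)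
      ((hsum _ hxh).sub (hsum _ hx.le))
    by_cases hn : n ∈ resPrimes14 a
    · rw [Set.indicator_of_mem hn, Set.indicator_of_mem hn, Set.indicator_of_mem hn]
      exact mean_value14 hn.1.pos
    · rw [Set.indicator_of_notMem hn, Set.indicator_of_notMem hn, Set.indicator_of_notMem hn]
      simp
  have hind : ∀ J : ℕ, c * J / 2 - |C| * (1 - (1 / 2) ^ J) ≤ G (1 + (1 / 2) ^ J) := by
    intro J
    induction J with
    | zero =>
      simp only [Nat.cast_zero, mul_zero, zero_div, pow_zero, sub_self]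
      exact hG0 _
    | succ J ih =>
      have h2 : (0 : ℝ) < (1 / 2) ^ J := by positivity
      have h3 : ((1 : ℝ) / 2) ^ J ≤ 1 := pow_le_one₀ (by norm_num) (by norm_num)
      have h4 := hstep (1 + (1 / 2) ^ J) ((1 / 2) ^ (J + 1)) (by linarith) (by linarith)
        (by positivity) (by rw [pow_succ]; linarith)
      have h5 : (1 : ℝ) + (1 / 2) ^ J - (1 / 2) ^ (J + 1) = 1 + (1 / 2) ^ (J + 1) := by
        rw [pow_succ]
        ring
      rw [h5] at h4
      have h6 : (1 / 2 : ℝ) ^ (J + 1) * (c / (1 + (1 / 2) ^ J - 1) - C) =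
          c / 2 - (1 / 2) ^ (J + 1) * C := by
        rw [add_sub_cancel_left, pow_succ]
        field_simp
      rw [h6] at h4
      have h7 : (1 / 2 : ℝ) ^ (J + 1) * C ≤ (1 / 2) ^ (J + 1) * |C| :=
        mul_le_mul_of_nonneg_left (le_abs_self C) (by positivity)
      have h8 : |C| * (1 - (1 / 2 : ℝ) ^ J) = |C| - 2 * ((1 / 2) ^ (J + 1) * |C|) := by
        rw [pow_succ]
        ring
      have h9 : |C| * (1 - (1 / 2 : ℝ) ^ (J + 1)) = |C| - (1 / 2) ^ (J + 1) * |C| := by ring
      rw [h8] at ih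
      rw [h9]
      push_cast
      linarith
  obtain ⟨J, hJ⟩ := exists_nat_gt ((∑' n : ℕ,
    (resPrimes14 a).indicator (fun n : ℕ => (1 : ℝ) / n) n + |C|) * 2 / c)
  have h1 := (hind J).trans (hG _ (by
    have : (0 : ℝ) < (1 / 2) ^ J := by positivity
    linarith))
  rw [div_lt_iff₀ hq] at hJ
  have h2 : |C| * (1 - (1 / 2) ^ J) ≤ |C| := by
    have h3 : (0 : ℝ) < (1 / 2) ^ J := by positivity
    nlinarith [abs_nonneg C]
  linarith

/-- Finite sets of large primes in the residue class with large sums of the inverses. -/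
theorem sum_residue_unbounded14 [NeZero q] (ha : IsUnit a) {c : ℝ} (hc : 0 < c) (P₀ : ℕ) (T : ℝ) :
    ∃ S : Finset ℕ, (∀ p ∈ S, p.Prime ∧ P₀ ≤ p ∧ (p : ZMod q) = a) ∧ T ≤ ∑ p ∈ S, c / p := by
  by_contra hcon
  push Not at hcon
  apply not_summable_residue14 ha
  apply summable_of_sum_le (c := T / c + ∑ p ∈ Finset.range P₀, (1 : ℝ) / p)
  · intro n
    exact Set.indicator_nonneg (fun _ _ => by positivity) n
  · intro s
    have h1 := hcon (s.filter fun p : ℕ => p.Prime ∧ P₀ ≤ p ∧ (p : ZMod q) = a)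
      fun p hp => (Finset.mem_filter.mp hp).2
    have h3 : ∑ x ∈ s, (resPrimes14 a).indicator (fun n : ℕ => (1 : ℝ) / n) x =
        ∑ x ∈ s.filter (fun p : ℕ => p.Prime ∧ (p : ZMod q) = a), (1 : ℝ) / x := by
      rw [Finset.sum_filter]
      refine Finset.sum_congr rfl fun x _ => ?_
      by_cases hx : x ∈ resPrimes14 a
      · rw [Set.indicator_of_mem hx]; exact (if_pos hx).symm
      · rw [Set.indicator_of_notMem hx]; exact (if_neg hx).symm
    have h4 : s.filter (fun p : ℕ => p.Prime ∧ (p : ZMod q) = a) ⊆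
        s.filter (fun p : ℕ => p.Prime ∧ P₀ ≤ p ∧ (p : ZMod q) = a) ∪ Finset.range P₀ := by
      intro p hp
      rw [Finset.mem_filter] at hp
      rw [Finset.mem_union, Finset.mem_filter, Finset.mem_range]
      rcases le_or_gt P₀ p with h | h
      · exact Or.inl ⟨hp.1, hp.2.1, h, hp.2.2⟩
      · exact Or.inr h
    rw [h3]
    refine (Finset.sum_le_sum_of_subset_of_nonneg h4 fun _ _ _ => by positivity).trans ?_
    have h5 := Finset.sum_union_inter (s₁ := s.filter (fun p : ℕ => p.Prime ∧ P₀ ≤ p ∧ (p : ZMod q) = a))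
      (s₂ := Finset.range P₀) (f := fun x : ℕ => (1 : ℝ) / x)
    have h6 : 0 ≤ ∑ x ∈ s.filter (fun p : ℕ => p.Prime ∧ P₀ ≤ p ∧ (p : ZMod q) = a) ∩ Finset.range P₀,
        (1 : ℝ) / x := Finset.sum_nonneg fun _ _ => by positivity
    have h7 : ∑ x ∈ s.filter (fun p : ℕ => p.Prime ∧ P₀ ≤ p ∧ (p : ZMod q) = a), (1 : ℝ) / x ≤
        T / c := by
      rw [le_div_iff₀ hc, Finset.sum_mul]
      refine le_trans (le_of_eq ?_) h1.le
      refine Finset.sum_congr rfl fun x _ => ?_
      ring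
    linarith

end

end Pool.Agent.Lib.MP_52d52b_nt
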